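import Mathlib

namespace Pool.Agent.Results.MP_3d4fca_co.NineVertices

/-- The `r`-ball of `v`: all vertices at (extended) distance at most `r` from `v`. -/
def ball {V : Type} (G : SimpleGraph V) (r : ℕ) (v : V) : Set V := {u | G.edist v u ≤ r}

/-- `G` is `r`-twin-free: distinct vertices have distinct `r`-balls. -/
def TwinFree {V : Type} (G : SimpleGraph V) (r : ℕ) : Prop :=
  ∀ u v : V, ball G r u = ball G r v → u = v

/-- `G` is `r`-terminal: it is `r`-twin-free, but the graph obtained by deleting any vertex is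
not. -/
def Terminal {V : Type} (G : SimpleGraph V) (r : ℕ) : Prop :=
  TwinFree G r ∧ ∀ v : V, ¬ TwinFree (G.induce {u | u ≠ v}) r

theorem mem_ball_two {V : Type} (G : SimpleGraph V) (v u : V) :
    u ∈ ball G 2 v ↔ (v = u ∨ G.Adj v u ∨ ∃ w, G.Adj v w ∧ G.Adj w u) := by
  show G.edist v u ≤ ((2 : ℕ) : ℕ∞) ↔ _
  rw [← not_iff_not, not_le]
  have h2 : ((2 : ℕ) : ℕ∞) = 2 := rfl
  rw [h2, SimpleGraph.two_lt_edist_iff]
  rw [Set.eq_empty_iff_forall_notMem]
  simp only [SimpleGraph.mem_commonNeighbors, not_or, not_exists, not_and, ne_eq]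
  constructor
  · rintro ⟨h3, h4, h5⟩
    exact ⟨h3, h4, fun w h6 h7 => h5 w h6 h7.symm⟩
  · rintro ⟨h3, h4, h5⟩
    exact ⟨h3, h4, fun w h6 h7 => h5 w h6 h7.symm⟩

/-- The edge list of the graph. -/
def edges : List (Fin 9 × Fin 9) :=
  [(0, 8), (1, 6), (1, 8), (2, 5), (2, 7), (3, 4), (3, 8), (4, 7), (4, 8), (5, 6), (5, 7), (6, 7)]

/-- Adjacency. -/
def A (u v : Fin 9) : Bool := edges.contains (u, v) || edges.contains (v, u)

/-- The graph. -/
def T : SimpleGraph (Fin 9) where
  Adj u v := A u v = true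
  symm := ⟨fun u v h => by
    have : ∀ u v, A u v = A v u := by decide
    rw [this]; exact h⟩
  loopless := ⟨fun u h => by
    have : ∀ u, A u u = false := by decide
    rw [this] at h
    exact Bool.noConfusion h⟩

/-- Distance at most two in the graph without the vertex `x`. -/
def near (x v u : Fin 9) : Prop :=
  v = u ∨ A v u = true ∨ ∃ w : Fin 9, w ≠ x ∧ A v w = true ∧ A w u = true

instance (x v u : Fin 9) : Decidable (near x v u) := by
  unfold near; infer_instance

theorem twinFree : TwinFree T 2 := by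
  have key : ∀ u v : Fin 9, u ≠ v → ∃ z : Fin 9,
      ¬ ((u = z ∨ A u z = true ∨ ∃ w, A u w = true ∧ A w z = true) ↔
        (v = z ∨ A v z = true ∨ ∃ w, A v w = true ∧ A w z = true)) := by decide +kernel
  intro u v h
  by_contra hne
  obtain ⟨z, hz⟩ := key u v hne
  apply hz
  have h1 := mem_ball_two T u z
  have h2 := mem_ball_two T v z
  rw [h] at h1
  exact h1.symm.trans h2

theorem connected : T.Connected := by
  have h0 : ∀ v : Fin 9, ∃ a b : Fin 9, (v = a ∨ A v a = true) ∧ (a = b ∨ A a b = true) ∧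
      (b = 8 ∨ A b 8 = true) := by decide +kernel
  have h1 : ∀ u v : Fin 9, (u = v ∨ A u v = true) → T.Reachable u v := by
    rintro u v (rfl | h)
    · exact SimpleGraph.Reachable.refl _
    · exact SimpleGraph.Adj.reachable (show T.Adj u v from h)
  have key : ∀ v : Fin 9, T.Reachable v 8 := by
    intro v
    obtain ⟨a, b, h2, h3, h4⟩ := h0 v
    exact ((h1 _ _ h2).trans (h1 _ _ h3)).trans (h1 _ _ h4)
  exact ⟨fun u v => (key u).trans (key v).symm⟩

theorem terminal : Terminal T 2 := by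
  refine ⟨twinFree, fun x h => ?_⟩
  have key : ∀ x : Fin 9, ∃ u v : Fin 9, u ≠ x ∧ v ≠ x ∧ u ≠ v ∧
      ∀ z : Fin 9, z ≠ x → (near x u z ↔ near x v z) := by decide +kernel
  obtain ⟨u, v, hu, hv, huv, hz⟩ := key x
  have h1 := h ⟨u, hu⟩ ⟨v, hv⟩ ?_
  · exact huv (congrArg Subtype.val h1)
  · ext ⟨z, hzx⟩
    rw [mem_ball_two, mem_ball_two]
    have h2 : ∀ a : Fin 9, ∀ ha : a ≠ x, ((⟨a, ha⟩ : {u : Fin 9 | u ≠ x}) = ⟨z, hzx⟩ ∨
        (T.induce {u | u ≠ x}).Adj ⟨a, ha⟩ ⟨z, hzx⟩ ∨
        ∃ w, (T.induce {u | u ≠ x}).Adj ⟨a, ha⟩ w ∧ (T.induce {u | u ≠ x}).Adj w ⟨z, hzx⟩) ↔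
        near x a z := by
      intro a ha
      unfold near
      constructor
      · rintro (h3 | h3 | ⟨⟨w, hw⟩, h3, h4⟩)
        · exact Or.inl (congrArg Subtype.val h3)
        · exact Or.inr (Or.inl h3)
        · exact Or.inr (Or.inr ⟨w, hw, h3, h4⟩)
      · rintro (h3 | h3 | ⟨w, hw, h3, h4⟩)
        · exact Or.inl (Subtype.ext h3)
        · exact Or.inr (Or.inl h3)
        · exact Or.inr (Or.inr ⟨⟨w, hw⟩, h3, h4⟩)
    rw [h2 u hu, h2 v hv]
    exact hz z hzx

/-- There is a connected `2`-terminal graph (on nine vertices) which is not isomorphic to the path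
on five vertices. -/
theorem result : ∃ (V : Type) (_ : Fintype V) (G : SimpleGraph V), G.Connected ∧ Terminal G 2 ∧
    IsEmpty (G ≃g SimpleGraph.pathGraph 5) := by
  refine ⟨Fin 9, inferInstance, T, connected, terminal, ⟨fun e => ?_⟩⟩
  have := Fintype.card_congr e.toEquiv
  simp at this

end Pool.Agent.Results.MP_3d4fca_co.NineVertices
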